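import Mathlib

/-!
# Linear dependence of Teichmueller vectors of non-commutative polynomials

The free associative unital ring on the set `S` is `FreeAlgebra ℤ S`.
We take `S = {x, y}` (`Fin 2`), put `u = x + 1`, `v = x - 1` and consider the six elements
`g * y * h` where `(g, h)` runs through the factorisations
`(u, x v), (x, u v), (v, u x), (u x, v), (u v, x), (x v, u)` of the polynomial `P = u x v`.
Since `h * g = P` in all cases, `(g y h)^(n+1) = g * (y (P y)^n) * h`, and
`u ⊗ x v - 2 x ⊗ u v + v ⊗ u x + u x ⊗ v - 2 u v ⊗ x + x v ⊗ u = 0`.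
-/

namespace Pool.Agent.Results.MP_8dadf2_al.Counterexample

/-- The Teichmueller vector `⟨r⟩ = (r, r^p, r^(p^2), ...)` in `A^ℕ`. -/
def teichmuller {A : Type*} [Monoid A] (p : ℕ) (r : A) : ℕ → A := fun k => r ^ (p ^ k)

section ring

variable {R : Type*} [Ring R]

lemma pow_sandwich (g h y P : R) (hP : h * g = P) (n : ℕ) :
    (g * y * h) ^ (n + 1) = g * (y * (P * y) ^ n) * h := by
  induction n with
  | zero => simp [mul_assoc]
  | succ n ih =>
    rw [pow_succ, ih, pow_succ (P * y) n]
    calc g * (y * (P * y) ^ n) * h * (g * y * h)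
        = g * (y * (P * y) ^ n) * (h * g) * y * h := by simp only [mul_assoc]
      _ = g * (y * ((P * y) ^ n * (P * y))) * h := by rw [hP]; simp only [mul_assoc]

/-- The six elements. -/
def fam (x y : R) : Fin 6 → R :=
  ![(x + 1) * y * (x * (x - 1)), x * y * ((x + 1) * (x - 1)), (x - 1) * y * ((x + 1) * x),
    ((x + 1) * x) * y * (x - 1), ((x + 1) * (x - 1)) * y * x, (x * (x - 1)) * y * (x + 1)]

/-- The six coefficients. -/
def coef : Fin 6 → ℤ := ![1, -2, 1, 1, -2, 1]

lemma rel (x y : R) (n : ℕ) : ∑ i, coef i • (fam x y i) ^ (n + 1) = 0 := by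
  have h1 : (x * (x - 1)) * (x + 1) = (x + 1) * x * (x - 1) := by noncomm_ring
  have h2 : ((x + 1) * (x - 1)) * x = (x + 1) * x * (x - 1) := by noncomm_ring
  have h3 : ((x + 1) * x) * (x - 1) = (x + 1) * x * (x - 1) := rfl
  have h4 : (x - 1) * ((x + 1) * x) = (x + 1) * x * (x - 1) := by noncomm_ring
  have h5 : x * ((x + 1) * (x - 1)) = (x + 1) * x * (x - 1) := by noncomm_ring
  have h6 : (x + 1) * (x * (x - 1)) = (x + 1) * x * (x - 1) := by noncomm_ring
  simp only [Fin.sum_univ_six, coef, fam]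
  simp only [Matrix.cons_val]
  rw [pow_sandwich _ _ y _ h1, pow_sandwich _ _ y _ h2, pow_sandwich _ _ y _ h3,
    pow_sandwich _ _ y _ h4, pow_sandwich _ _ y _ h5, pow_sandwich _ _ y _ h6]
  generalize y * ((x + 1) * x * (x - 1) * y) ^ n = W
  noncomm_ring

end ring

/-- Evaluation used to separate the six elements. -/
def X : Matrix (Fin 2) (Fin 2) ℤ := !![2, 0; 0, 5]

/-- Evaluation used to separate the six elements. -/
def Y : Matrix (Fin 2) (Fin 2) ℤ := !![0, 1; 0, 0]

lemma fam_entry : ∀ i : Fin 6,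
    (fam X Y i) 0 1 = (![60, 48, 30, 24, 15, 12] : Fin 6 → ℤ) i := by
  decide

/-- The evaluation homomorphism sending the variable `s` to `X`, the variable `t` to `Y` and
all other variables to `0`. -/
noncomputable def ev {S : Type*} [DecidableEq S] (s t : S) :
    FreeAlgebra ℤ S →ₐ[ℤ] Matrix (Fin 2) (Fin 2) ℤ :=
  FreeAlgebra.lift ℤ (fun a => if a = s then X else if a = t then Y else 0)

lemma ev_fam {S : Type*} [DecidableEq S] {s t : S} (hst : s ≠ t) (i : Fin 6) :
    ev s t (fam (FreeAlgebra.ι ℤ s) (FreeAlgebra.ι ℤ t) i) = fam X Y i := by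
  have hts : t ≠ s := hst.symm
  fin_cases i <;> simp [fam, ev, hts]

/-- **Answer to Q1: no, as soon as there are two variables.**  For every set `S` with at least two
elements there are six pairwise distinct non-zero non-commutative polynomials `f_i` in
`ℤ{S} = FreeAlgebra ℤ S`, no one of them the negative of another, and integers
`c_i`, not all zero, such that for every odd prime `p` the linear combination
`∑ c_i ⟨f_i⟩` of Teichmueller vectors is zero. -/
theorem result (S : Type*) [Nontrivial S] :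
    ∃ (f : Fin 6 → FreeAlgebra ℤ S) (c : Fin 6 → ℤ),
      (∀ i, f i ≠ 0) ∧ (∀ i j, i ≠ j → f i ≠ f j ∧ f i ≠ -f j) ∧ (∃ i, c i ≠ 0) ∧
      ∀ p : ℕ, p.Prime → p ≠ 2 → ∑ i, c i • teichmuller p (f i) = 0 := by
  classical
  obtain ⟨s, t, hst⟩ := exists_pair_ne S
  set F : Fin 6 → FreeAlgebra ℤ S :=
    fam (FreeAlgebra.ι ℤ s) (FreeAlgebra.ι ℤ t) with hF
  have hent : ∀ i, (ev s t (F i)) 0 1 = (![60, 48, 30, 24, 15, 12] : Fin 6 → ℤ) i := by
    intro i
    rw [hF, ev_fam hst, fam_entry]
  refine ⟨F, coef, ?_, ?_, ⟨0, by decide⟩, ?_⟩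
  · intro i h
    have h1 := hent i
    rw [h, map_zero] at h1
    revert h1
    fin_cases i <;> decide
  · intro i j hij
    constructor
    · intro h
      have h1 := hent i
      rw [h, hent j] at h1
      revert h1 hij
      fin_cases i <;> fin_cases j <;> decide
    · intro h
      have h1 := hent i
      rw [h, map_neg, Matrix.neg_apply, hent j] at h1
      revert h1
      fin_cases i <;> fin_cases j <;> decide
  · intro p hp _
    funext k
    obtain ⟨n, hn⟩ : ∃ n, p ^ k = n + 1 :=
      Nat.exists_eq_succ_of_ne_zero (pow_ne_zero _ hp.ne_zero)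
    have h := rel (FreeAlgebra.ι ℤ s) (FreeAlgebra.ι ℤ t) n
    simpa [Finset.sum_apply, teichmuller, hn] using h

end Pool.Agent.Results.MP_8dadf2_al.Counterexample
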